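import Pool.Agent.H82.HD.TR

/-!
MP_ee74d2_an, theorem HD: row PRM (few tubes are near two given points in projective coordinates).
-/

set_option autoImplicit false

namespace Pool.Agent.H91.HD

open MeasureTheory Set
open Pool.Agent.H83.G Pool.Agent.H82.HD
open Pool.Agent.H22.G (co)
open scoped ENNReal NNReal RealInnerProductSpace

variable {m : ℕ}

theorem vc_sub (p p' : ℝ × E m) (i : Fin (m + 1)) : vc (p - p') i = vc p i - vc p' i := by
  refine Fin.cases ?_ (fun j => ?_) i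
  · simp [vc]
  · simp [vc]

theorem norm_E_le (x : E m) {B : ℝ} (hB : 0 ≤ B) (h : ∀ i, |x i| ≤ B) :
    ‖x‖ ≤ ((m : ℝ) + 1) * B := by
  have hm : (0 : ℝ) ≤ m := Nat.cast_nonneg _
  have h1 : ‖x‖ ^ 2 ≤ (((m : ℝ) + 1) * B) ^ 2 := by
    rw [EuclideanSpace.norm_sq_eq]
    calc ∑ i, ‖x i‖ ^ 2 ≤ ∑ _i : Fin m, B ^ 2 := by
          apply Finset.sum_le_sum
          intro i _
          rw [Real.norm_eq_abs]
          exact pow_le_pow_left₀ (abs_nonneg _) (h i) 2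
      _ = m * B ^ 2 := by simp
      _ ≤ ((m : ℝ) + 1) ^ 2 * B ^ 2 := by
          apply mul_le_mul_of_nonneg_right _ (sq_nonneg _)
          nlinarith
      _ = _ := by ring
  exact (pow_le_pow_iff_left₀ (norm_nonneg _) (by positivity) two_ne_zero).mp h1

theorem norm_vc_le (p : ℝ × E m) {B : ℝ} (hB : 0 ≤ B) (h : ∀ i, |vc p i| ≤ B) :
    ‖p‖ ≤ ((m : ℝ) + 1) * B := by
  have hm : (0 : ℝ) ≤ m := Nat.cast_nonneg _
  rw [Prod.norm_def]
  apply max_le
  · have h0 := h 0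
    have h1 : vc p 0 = p.1 := by simp [vc]
    rw [h1] at h0
    rw [Real.norm_eq_abs]
    nlinarith
  · apply norm_E_le _ hB
    intro i
    have h0 := h i.succ
    have h1 : vc p i.succ = p.2 i := by simp [vc]
    rw [h1] at h0
    exact h0

theorem box_count (F : Finset (Zi m)) (a : Zi m) (N : ℝ) (hN : 1 ≤ N)
    (h : ∀ l ∈ F, |(l.1 : ℝ) - a.1| ≤ N ∧ (∀ i, |(l.2.1 i : ℝ) - a.2.1 i| ≤ N) ∧
      |(l.2.2 : ℝ) - a.2.2| ≤ N) :
    F.card ≤ (2 * ⌊N⌋₊ + 1) ^ (m + 2) := by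
  classical
  have key : ∀ x b : ℤ, |(x : ℝ) - b| ≤ N →
      x ∈ Finset.Icc (b - (⌊N⌋₊ : ℤ)) (b + (⌊N⌋₊ : ℤ)) := by
    intro x b hx
    have h1 : |x - b| ≤ ⌊N⌋ := by
      rw [Int.le_floor]
      push_cast
      exact hx
    have h2 : (⌊N⌋₊ : ℤ) = ⌊N⌋ := Int.natCast_floor_eq_floor (by linarith)
    rw [Finset.mem_Icc, h2]
    have h3 := abs_le.mp h1
    constructor <;> linarith [h3.1, h3.2]
  have hsub : F ⊆ (Finset.Icc (a.1 - (⌊N⌋₊ : ℤ)) (a.1 + (⌊N⌋₊ : ℤ))) ×ˢ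
      ((Fintype.piFinset fun i => Finset.Icc (a.2.1 i - (⌊N⌋₊ : ℤ)) (a.2.1 i + (⌊N⌋₊ : ℤ))) ×ˢ
        Finset.Icc (a.2.2 - (⌊N⌋₊ : ℤ)) (a.2.2 + (⌊N⌋₊ : ℤ))) := by
    intro l hl
    obtain ⟨h1, h2, h3⟩ := h l hl
    rw [Finset.mem_product, Finset.mem_product, Fintype.mem_piFinset]
    exact ⟨key _ _ h1, fun i => key _ _ (h2 i), key _ _ h3⟩
  refine (Finset.card_le_card hsub).trans ?_
  rw [Finset.card_product, Finset.card_product, Fintype.card_piFinset]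
  have hc : ∀ b : ℤ, (Finset.Icc (b - (⌊N⌋₊ : ℤ)) (b + (⌊N⌋₊ : ℤ))).card = 2 * ⌊N⌋₊ + 1 := by
    intro b
    rw [Int.card_Icc]
    omega
  simp only [hc, Finset.prod_const, Finset.card_univ, Fintype.card_fin]
  exact le_of_eq (by ring)

theorem ediv_diff (a b n : ℤ) (hn : 0 < n) {x : ℝ} (h : |(a : ℝ) - b| ≤ x) :
    |((a / n : ℤ) : ℝ) - ((b / n : ℤ) : ℝ)| ≤ x / n + 1 := by
  have hn' : (0 : ℝ) < n := by exact_mod_cast hn
  have key : ∀ c : ℤ, (n : ℝ) * ((c / n : ℤ) : ℝ) ≤ c ∧ (c : ℝ) < n * ((c / n : ℤ) : ℝ) + n := by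
    intro c
    have h1 := Int.mul_ediv_add_emod c n
    have h2 := Int.emod_nonneg c hn.ne'
    have h3 := Int.emod_lt_of_pos c hn
    constructor
    · have : n * (c / n) ≤ c := by linarith
      exact_mod_cast this
    · have : c < n * (c / n) + n := by linarith
      exact_mod_cast this
  obtain ⟨a1, a2⟩ := key a
  obtain ⟨b1, b2⟩ := key b
  obtain ⟨h1, h2⟩ := abs_le.mp h
  have h3 : |(n : ℝ) * (((a / n : ℤ) : ℝ) - ((b / n : ℤ) : ℝ))| ≤ x + n := by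
    rw [abs_le]
    constructor <;> linarith
  rw [abs_mul, abs_of_pos hn'] at h3
  rw [← sub_nonneg]
  have h4 : x / n + 1 - |((a / n : ℤ) : ℝ) - ((b / n : ℤ) : ℝ)| =
      (x + n - n * |((a / n : ℤ) : ℝ) - ((b / n : ℤ) : ℝ)|) / n := by
    field_simp
  rw [h4]
  exact div_nonneg (by linarith) hn'.le

theorem fibre (hBPG : T_BPG) (hLOA : T_LOA) (m : ℕ) : ∃ C : ℝ, 1 ≤ C ∧
    ∀ (R T δ E' u : ℝ) (z₀ : Z m) (p : ℝ × E m) (Tu Tu' : Pk m) (q q' : Zi m),
    1 ≤ R → 0 ≤ δ → 0 < T → 1 ≤ E' → T / (8 * Real.sqrt R) ≤ u →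
    ‖ctr (sR R) Tu.1‖ ≤ 3 → Tu'.1 = Tu.1 → Inc R δ Tu q → Inc R δ Tu' q' →
    ‖co R q - z₀‖ ≤ ((m : ℝ) + 2) * R → ‖co R q' - z₀‖ ≤ ((m : ℝ) + 2) * R →
    (∀ i, |u * (T⁻¹ * vc (bp (ctr (sR R) Tu.1) (co R q) - p) i) -
      u * (T⁻¹ * vc (bp (ctr (sR R) Tu.1) (co R q') - p) i)| ≤ 2 * E') →
    |(Tu.2.1 : ℝ) - Tu'.2.1| ≤ C * E' * R ^ (2 * δ) ∧
    (∀ i, |(Tu.2.2.1 i : ℝ) - Tu'.2.2.1 i| ≤ C * E' * R ^ (2 * δ)) ∧
    |(Tu.2.2.2 : ℝ) - Tu'.2.2.2| ≤ C * E' * R ^ (2 * δ) := by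
  obtain ⟨hb1, hb2, hb3, hb4, hb5⟩ := hBPG m
  obtain ⟨CB, hCB, hb6, hb7⟩ := hb5 3 (by norm_num)
  obtain ⟨hl1, hl2, -, -, -, -⟩ := hLOA m
  have hm : (0 : ℝ) ≤ m := Nat.cast_nonneg _
  set C₃ : ℝ := 16 * (m + 1) + CB * (2 * (m + 1)) with hC3
  have hC3p : 0 ≤ C₃ := by positivity
  refine ⟨CB * C₃ + 3 + (4 * m + 6), by nlinarith [mul_nonneg (by linarith : (0:ℝ) ≤ CB) hC3p], ?_⟩
  intro R T δ E' u z₀ p Tu Tu' q q' hR hδ hT hE hu hη hk hI hI' hq hq' hdist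
  have hR0 : 0 < R := by linarith
  set r := Real.sqrt R with hr
  have hr1 : 1 ≤ r := by rw [hr]; exact Real.one_le_sqrt.mpr hR
  have hr0 : 0 < r := by linarith
  have hrr : r * r = R := Real.mul_self_sqrt hR0.le
  set g := R ^ δ with hg
  have hg1 : 1 ≤ g := Real.one_le_rpow hR hδ
  have hg0 : 0 < g := by linarith
  have e1 : R ^ (1 / 2 + δ) = r * g := by
    rw [Real.rpow_add hR0, ← Real.sqrt_eq_rpow]
  have e2 : R ^ (-δ) = g⁻¹ := Real.rpow_neg hR0.le δ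
  have e3 : R ^ (2 * δ) = g ^ 2 := by
    rw [hg, ← Real.rpow_natCast, ← Real.rpow_mul hR0.le]
    congr 1
    push_cast
    ring
  obtain ⟨W, z, hW, hz, hnz⟩ := hI
  obtain ⟨W', z', hW', hz', hnz'⟩ := hI'
  have hW1 : W.1 = Tu.1 := by rw [← hW]; rfl
  have hW1' : W'.1 = Tu.1 := by rw [← hk, ← hW']; rfl
  unfold near fc at hnz hnz'
  rw [hW1] at hnz
  rw [hW1'] at hnz'
  set η := ctr (sR R) Tu.1 with hηd
  have hs : sR R = r⁻¹ := rfl
  rw [e1] at hz hz'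
  rw [e2] at hnz hnz'
  have hco : Real.sqrt R • zc q = co R q := rfl
  have hco' : Real.sqrt R • zc q' = co R q' := rfl
  rw [hco] at hz
  rw [hco'] at hz'
  -- the difference of the points
  set w := z - z' with hw
  have hwd : w = (co R q - co R q') + ((z - co R q) - (z' - co R q')) := by
    rw [hw]; abel
  have hd : ‖bp η (co R q - co R q')‖ ≤ ((m : ℝ) + 1) * (16 * E' * r) := by
    apply norm_vc_le _ (by positivity)
    intro i
    have h1 := hdist i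
    have h2 : bp η (co R q - co R q') = (bp η (co R q) - p) - (bp η (co R q') - p) := by
      rw [(hb1 η _ _).2]; abel
    rw [h2, vc_sub]
    rw [← mul_sub, ← mul_sub, abs_mul, abs_mul] at h1
    have hu0 : 0 < u := lt_of_lt_of_le (by positivity) hu
    rw [abs_of_pos hu0, abs_of_pos (inv_pos.mpr hT)] at h1
    set D := |vc (bp η (co R q) - p) i - vc (bp η (co R q') - p) i| with hD
    have hD0 : 0 ≤ D := abs_nonneg _
    have h3 : T / (8 * r) * (T⁻¹ * D) ≤ u * (T⁻¹ * D) :=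
      mul_le_mul_of_nonneg_right hu (by positivity)
    have h4 : T / (8 * r) * (T⁻¹ * D) = D / (8 * r) := by
      field_simp
    rw [h4] at h3
    have h5 := h3.trans h1
    rw [div_le_iff₀ (by positivity)] at h5
    linarith
  have he : ‖bp η ((z - co R q) - (z' - co R q'))‖ ≤ CB * (2 * (m + 1) * (r * g)) := by
    refine ((hb6 η _ hη).1).trans ?_
    apply mul_le_mul_of_nonneg_left _ (by linarith)
    refine (norm_sub_le _ _).trans ?_
    linarith
  have hbw : ‖bp η w‖ ≤ C₃ * E' * (r * g) := by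
    rw [hwd, (hb1 η _ _).1]
    refine (norm_add_le _ _).trans ?_
    have h1 : ((m : ℝ) + 1) * (16 * E' * r) ≤ 16 * (m + 1) * E' * (r * g) := by
      have : r ≤ r * g := by nlinarith
      calc ((m : ℝ) + 1) * (16 * E' * r) = 16 * (m + 1) * E' * r := by ring
        _ ≤ _ := mul_le_mul_of_nonneg_left this (by positivity)
    have h2 : CB * (2 * ((m : ℝ) + 1) * (r * g)) ≤ CB * (2 * (m + 1)) * E' * (r * g) := by
      have h3 : CB * (2 * ((m : ℝ) + 1)) * 1 ≤ CB * (2 * (m + 1)) * E' :=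
        mul_le_mul_of_nonneg_left hE (by positivity)
      have h4 := mul_le_mul_of_nonneg_right h3 (by positivity : 0 ≤ r * g)
      linarith
    have h3 : C₃ * E' * (r * g) = 16 * (m + 1) * E' * (r * g) +
      CB * (2 * (m + 1)) * E' * (r * g) := by rw [hC3]; ring
    rw [h3]
    linarith
  have hLo := ((hb6 η w hη).2.2.2).trans (mul_le_mul_of_nonneg_left hbw (by linarith : 0 ≤ CB))
  set B := CB * (C₃ * E' * (r * g)) with hB
  have hLo1 : |(Lo η 1 w).1| ≤ B := by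
    have := norm_nonneg (Lo η 1 w).2.1
    linarith
  have hLo2 : ‖(Lo η 1 w).2.1‖ ≤ B := by
    have := abs_nonneg (Lo η 1 w).1
    linarith
  -- the difference of the indices
  have hdiff : ‖g⁻¹ • Lo η (sR R) w - (zc W.2 - zc W'.2)‖ ≤ 2 * g := by
    have h1 : g⁻¹ • Lo η (sR R) w - (zc W.2 - zc W'.2) =
        (g⁻¹ • Lo η (sR R) z - zc W.2) - (g⁻¹ • Lo η (sR R) z' - zc W'.2) := by
      rw [hw, (hl1 η (sR R) z z').2.1, smul_sub]
      abel
    rw [h1]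
    refine (norm_sub_le _ _).trans ?_
    linarith
  have hw22 : |w.2.2| ≤ (4 * m + 6) * (R * g) := by
    have h1 : |w.2.2| ≤ ‖w‖ := by
      have h2 : ‖w.2.2‖ ≤ ‖w.2‖ := norm_snd_le w.2
      have h3 : ‖w.2‖ ≤ ‖w‖ := norm_snd_le w
      rw [← Real.norm_eq_abs]
      exact h2.trans h3
    have h2 : w = (z - co R q) - (z' - co R q') + (co R q - z₀) - (co R q' - z₀) := by
      rw [hw]; abel
    have h3 : ‖w‖ ≤ (((m : ℝ) + 1) * (r * g) + ((m : ℝ) + 1) * (r * g)) +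
        ((m : ℝ) + 2) * R + ((m : ℝ) + 2) * R := by
      rw [h2]
      refine (norm_sub_le _ _).trans (add_le_add ((norm_add_le _ _).trans
        (add_le_add ((norm_sub_le _ _).trans (add_le_add hz hz')) hq)) hq')
    have h4 : r * g ≤ R * g := by
      apply mul_le_mul_of_nonneg_right _ hg0.le
      nlinarith
    have h5 : R ≤ R * g := by nlinarith
    nlinarith
  have hc1 : |g⁻¹ * (Lo η (sR R) w).1 - ((W.2.1 : ℝ) - W'.2.1)| ≤ 2 * g := by
    have h1 := (norm_fst_le _).trans hdiff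
    rw [← Real.norm_eq_abs]
    simpa [zc] using h1
  have hc2 : ∀ i, |g⁻¹ * (Lo η (sR R) w).2.1 i - ((W.2.2.1 i : ℝ) - W'.2.2.1 i)| ≤ 2 * g := by
    intro i
    have h1 := (norm_fst_le _).trans ((norm_snd_le _).trans hdiff)
    have h2 := (PiLp.norm_apply_le _ i).trans h1
    rw [← Real.norm_eq_abs]
    simpa [zc] using h2
  have hc3 : |g⁻¹ * (Lo η (sR R) w).2.2 - ((W.2.2.2 : ℝ) - W'.2.2.2)| ≤ 2 * g := by
    have h1 := (norm_snd_le _).trans ((norm_snd_le _).trans hdiff)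
    rw [← Real.norm_eq_abs]
    simpa [zc] using h1
  have hgg : g ≤ g ^ 2 := by nlinarith
  have hg2 : 1 ≤ g ^ 2 := by nlinarith
  have hEg : g ^ 2 ≤ E' * g ^ 2 := by nlinarith
  have hE0 : 0 < E' := by linarith
  have hCC : 0 ≤ CB * C₃ := by positivity
  -- the three bounds
  have hd1 : |(W.2.1 : ℝ) - W'.2.1| ≤ CB * C₃ * E' * r + 2 * g := by
    have h1 : (Lo η (sR R) w).1 = (Lo η 1 w).1 := rfl
    rw [h1] at hc1
    have h2 : |g⁻¹ * (Lo η 1 w).1| ≤ CB * C₃ * E' * r := by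
      rw [abs_mul, abs_of_pos (inv_pos.mpr hg0)]
      calc g⁻¹ * |(Lo η 1 w).1| ≤ g⁻¹ * B :=
            mul_le_mul_of_nonneg_left hLo1 (inv_pos.mpr hg0).le
        _ = CB * C₃ * E' * r := by rw [hB]; field_simp
    have h3 := abs_le.mp hc1
    have h4 := abs_le.mp h2
    rw [abs_le]
    constructor <;> linarith [h3.1, h3.2, h4.1, h4.2]
  have hd2 : ∀ i, |(W.2.2.1 i : ℝ) - W'.2.2.1 i| ≤ CB * C₃ * E' + 2 * g := by
    intro i
    have h1 : (Lo η (sR R) w).2.1 = r⁻¹ • (Lo η 1 w).2.1 := by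
      rw [hs]
      show r⁻¹ • _ = r⁻¹ • ((1 : ℝ) • _)
      rw [one_smul]
    have hc := hc2 i
    rw [h1] at hc
    have h2 : |g⁻¹ * (r⁻¹ • (Lo η 1 w).2.1) i| ≤ CB * C₃ * E' := by
      have h3 : (r⁻¹ • (Lo η 1 w).2.1) i = r⁻¹ * (Lo η 1 w).2.1 i := rfl
      rw [h3, abs_mul, abs_mul, abs_of_pos (inv_pos.mpr hg0), abs_of_pos (inv_pos.mpr hr0)]
      have h4 : |(Lo η 1 w).2.1 i| ≤ B := by
        have := (PiLp.norm_apply_le (Lo η 1 w).2.1 i).trans hLo2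
        rwa [Real.norm_eq_abs] at this
      calc g⁻¹ * (r⁻¹ * |(Lo η 1 w).2.1 i|) ≤ g⁻¹ * (r⁻¹ * B) := by gcongr
        _ = CB * C₃ * E' := by rw [hB]; field_simp
    have h3 := abs_le.mp hc
    have h4 := abs_le.mp h2
    rw [abs_le]
    constructor <;> linarith [h3.1, h3.2, h4.1, h4.2]
  have hd3 : |(W.2.2.2 : ℝ) - W'.2.2.2| ≤ (4 * m + 6) + 2 * g := by
    have h1 : (Lo η (sR R) w).2.2 = r⁻¹ ^ 2 * w.2.2 := by
      rw [hs]
      rfl
    rw [h1] at hc3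
    have h2 : |g⁻¹ * (r⁻¹ ^ 2 * w.2.2)| ≤ 4 * m + 6 := by
      rw [abs_mul, abs_mul, abs_of_pos (inv_pos.mpr hg0), abs_of_pos (by positivity)]
      calc g⁻¹ * (r⁻¹ ^ 2 * |w.2.2|) ≤ g⁻¹ * (r⁻¹ ^ 2 * ((4 * (m : ℝ) + 6) * (R * g))) := by
            gcongr
        _ = 4 * (m : ℝ) + 6 := by rw [← hrr]; field_simp
    have h3 := abs_le.mp hc3
    have h4 := abs_le.mp h2
    rw [abs_le]
    constructor <;> linarith [h3.1, h3.2, h4.1, h4.2]
  rw [e3]
  have hfin : CB * C₃ * E' + 2 * g + 1 + (4 * m + 6) ≤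
      (CB * C₃ + 3 + (4 * m + 6)) * E' * g ^ 2 := by
    have h1 : CB * C₃ * E' * 1 ≤ CB * C₃ * E' * g ^ 2 :=
      mul_le_mul_of_nonneg_left hg2 (by positivity)
    have h2 : (4 * (m : ℝ) + 6) * 1 ≤ (4 * m + 6) * (E' * g ^ 2) :=
      mul_le_mul_of_nonneg_left (by linarith) (by positivity)
    nlinarith
  have hn : (0 : ℤ) < ⌈r⌉ := Int.ceil_pos.mpr hr0
  have hnr : r ≤ (⌈r⌉ : ℝ) := Int.le_ceil r
  refine ⟨?_, ?_, ?_⟩
  · have h1 : Tu.2.1 = W.2.1 / ⌈r⌉ := by rw [← hW]; rfl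
    have h2 : Tu'.2.1 = W'.2.1 / ⌈r⌉ := by rw [← hW']; rfl
    rw [h1, h2]
    refine (ediv_diff _ _ _ hn hd1).trans ?_
    have h3 : (CB * C₃ * E' * r + 2 * g) / (⌈r⌉ : ℝ) ≤ CB * C₃ * E' + 2 * g := by
      rw [div_le_iff₀ (by linarith)]
      have h4 : CB * C₃ * E' * r ≤ CB * C₃ * E' * (⌈r⌉ : ℝ) :=
        mul_le_mul_of_nonneg_left hnr (by positivity)
      have h5 : 2 * g * 1 ≤ 2 * g * (⌈r⌉ : ℝ) :=
        mul_le_mul_of_nonneg_left (by linarith) (by positivity)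
      linarith
    have h6 : (0 : ℝ) ≤ 4 * m + 6 := by positivity
    linarith
  · intro i
    have h1 : Tu.2.2.1 = W.2.2.1 := by rw [← hW]; rfl
    have h2 : Tu'.2.2.1 = W'.2.2.1 := by rw [← hW']; rfl
    rw [h1, h2]
    have h6 : (0 : ℝ) ≤ 4 * m + 6 := by positivity
    linarith [hd2 i]
  · have h1 : Tu.2.2.2 = W.2.2.2 := by rw [← hW]; rfl
    have h2 : Tu'.2.2.2 = W'.2.2.2 := by rw [← hW']; rfl
    rw [h1, h2]
    have h6 : 0 ≤ CB * C₃ * E' := by positivity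
    linarith

theorem pf_PRM (hBPG : T_BPG) (hPUS : T_PUS) (hLOA : T_LOA) (hLOB : T_LOB) : T_PRM := by
  classical
  intro m
  obtain ⟨C₇, hC7, hfib⟩ := fibre hBPG hLOA m
  obtain ⟨-, -, -, -, hb5⟩ := hBPG m
  obtain ⟨CB, hCB, -, hb7⟩ := hb5 3 (by norm_num)
  obtain ⟨-, -, C₂, hC2, -, hP, -⟩ := hPUS m
  have hm : (0 : ℝ) ≤ m := Nat.cast_nonneg _
  set C₁ : ℝ := CB * ((m + 1) * 10) with hC1
  have hC1p : 0 ≤ C₁ := by positivity
  set K : ℝ := max C₂ 1 with hK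
  have hK1 : 1 ≤ K := le_max_right _ _
  set C : ℝ := (1 + C₁) + 3 * C₇ * K with hCd
  have h37 : 1 ≤ 3 * C₇ * K := by nlinarith
  refine ⟨C, by linarith, ?_⟩
  intro R T δ E' ω u v z₀ TT qT y y' hR hδ hT hE hω hω1 hu1 hu2 huv hTT
  have hR0 : 0 < R := by linarith
  have hE0 : 0 < E' := by linarith
  set r := Real.sqrt R with hr
  have hr1 : 1 ≤ r := by rw [hr]; exact Real.one_le_sqrt.mpr hR
  have hr0 : 0 < r := by linarith
  have hrr : r * r = R := Real.mul_self_sqrt hR0.le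
  have hTR : R ≤ T := by nlinarith
  have hT0 : 0 < T := by linarith
  have hg1 : 1 ≤ R ^ (2 * δ) := Real.one_le_rpow hR (by positivity)
  rcases TT.eq_empty_or_nonempty with he | ⟨T₀, hT₀⟩
  · subst he
    simp only [Finset.card_empty, Nat.cast_zero]
    positivity
  -- the caps
  have hcap : ∀ Tu ∈ TT, ‖ctr (sR R) Tu.1 - ctr (sR R) T₀.1‖ ≤ C₁ * (E' / ω) * sR R := by
    intro Tu hTu
    obtain ⟨a1, a2, a3, a4, a5⟩ := hTT Tu hTu
    obtain ⟨b1, b2, b3, b4, b5⟩ := hTT T₀ hT₀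
    have h1 := (hb7 (ctr (sR R) Tu.1) (ctr (sR R) T₀.1) z₀ a1 b1).2.2.1
    refine h1.trans ?_
    have h2 : ‖wv (ctr (sR R) Tu.1) - wv (ctr (sR R) T₀.1)‖ ≤
        ((m : ℝ) + 1) * (10 * E' / (ω * r)) := by
      apply norm_vc_le _ (by positivity)
      intro i
      rw [vc_sub]
      have c1 := abs_le.mp (a4 i)
      have c2 := abs_le.mp (a5 i)
      have c3 := abs_le.mp (b4 i)
      have c4 := abs_le.mp (b5 i)
      set P := vc (wv (ctr (sR R) Tu.1)) i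
      set P' := vc (wv (ctr (sR R) T₀.1)) i
      set V := T⁻¹ * vc (bp (ctr (sR R) Tu.1) (co R (qT Tu)) - (z₀.1, z₀.2.1)) i
      set V' := T⁻¹ * vc (bp (ctr (sR R) T₀.1) (co R (qT T₀)) - (z₀.1, z₀.2.1)) i
      have d1 : |T / r * (P - P') + u * (V - V')| ≤ 2 * E' := by
        rw [abs_le]
        constructor <;> linarith [c1.1, c1.2, c3.1, c3.2]
      have d2 : |T / r * (P - P') + v * (V - V')| ≤ 2 * E' := by
        rw [abs_le]
        constructor <;> linarith [c2.1, c2.2, c4.1, c4.2]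
      have d3 : |u - v| * |V - V'| ≤ 4 * E' := by
        rw [← abs_mul]
        have e1 := abs_le.mp d1
        have e2 := abs_le.mp d2
        rw [abs_le]
        constructor <;> nlinarith [e1.1, e1.2, e2.1, e2.2]
      have d4 : ω * r * |V - V'| ≤ 4 * E' :=
        (mul_le_mul_of_nonneg_right huv (abs_nonneg _)).trans d3
      have hu0 : 0 < u := lt_of_lt_of_le (by positivity) hu1
      have d5 : |T / r * (P - P')| ≤ 2 * E' + u * |V - V'| := by
        have e1 := abs_le.mp d1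
        have e3 : |u * (V - V')| = u * |V - V'| := by rw [abs_mul, abs_of_pos hu0]
        have e4 := abs_le.mp (le_of_eq e3)
        rw [abs_le]
        constructor <;> linarith [e1.1, e1.2, e4.1, e4.2]
      have d6 : u * |V - V'| ≤ 2 * T / r * (4 * E' / (ω * r)) := by
        apply mul_le_mul hu2 _ (abs_nonneg _) (by positivity)
        rw [le_div_iff₀ (by positivity)]
        linarith
      have d7 : T / r * |P - P'| ≤ 2 * E' + 2 * T / r * (4 * E' / (ω * r)) := by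
        rw [abs_mul, abs_of_pos (by positivity)] at d5
        linarith
      have d8 : 2 * E' ≤ T / r * (2 * E' / (ω * r)) := by
        have e5 : T / r * (2 * E' / (ω * r)) = 2 * E' * (T / (ω * R)) := by
          rw [← hrr]; field_simp
        rw [e5]
        have e6 : 1 ≤ T / (ω * R) := by
          rw [le_div_iff₀ (by positivity)]
          nlinarith
        nlinarith
      have d9 : T / r * |P - P'| ≤ T / r * (10 * E' / (ω * r)) := by
        have e7 : T / r * (10 * E' / (ω * r)) =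
            T / r * (2 * E' / (ω * r)) + 2 * T / r * (4 * E' / (ω * r)) := by
          field_simp
          ring
        rw [e7]
        linarith
      exact le_of_mul_le_mul_left d9 (by positivity)
    calc CB * ‖wv (ctr (sR R) Tu.1) - wv (ctr (sR R) T₀.1)‖
        ≤ CB * (((m : ℝ) + 1) * (10 * E' / (ω * r))) :=
          mul_le_mul_of_nonneg_left h2 (by linarith)
      _ = C₁ * (E' / ω) * sR R := by
          have : sR R = r⁻¹ := rfl
          rw [this, hC1]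
          field_simp
  have hs0 : 0 < sR R := by
    have : sR R = r⁻¹ := rfl
    rw [this]
    positivity
  set J := TT.image (fun Tu => Tu.1) with hJ
  have hJc : (J.card : ℝ) ≤ C₂ * (1 + C₁ * (E' / ω)) ^ m := by
    have h1 := hP (sR R) (C₁ * (E' / ω) * sR R) (ctr (sR R) T₀.1) J hs0 (by positivity)
      (by
        intro k hk
        rw [hJ, Finset.mem_image] at hk
        obtain ⟨Tu, hTu, rfl⟩ := hk
        exact hcap Tu hTu)
    rwa [mul_div_assoc, div_self hs0.ne', mul_one] at h1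
  -- the fibres
  set N : ℝ := C₇ * E' * R ^ (2 * δ) with hN
  have hN1 : 1 ≤ N := by
    have h1 : 1 ≤ C₇ * E' := by nlinarith
    rw [hN]
    nlinarith
  have hfibc : ∀ k ∈ J, (TT.filter (fun Tu => Tu.1 = k)).card ≤ (2 * ⌊N⌋₊ + 1) ^ (m + 2) := by
    intro k hk
    rw [hJ, Finset.mem_image] at hk
    obtain ⟨T₁, hT₁, rfl⟩ := hk
    have hinj : Set.InjOn (fun Tu : Pk m => Tu.2)
        ((TT.filter (fun Tu => Tu.1 = T₁.1) : Finset (Pk m)) : Set (Pk m)) := by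
      intro a ha b hb hab
      rw [Finset.mem_coe, Finset.mem_filter] at ha hb
      exact Prod.ext (ha.2.trans hb.2.symm) hab
    rw [← Finset.card_image_of_injOn hinj]
    apply box_count _ T₁.2 N hN1
    intro l hl
    rw [Finset.mem_image] at hl
    obtain ⟨Tu, hTu, rfl⟩ := hl
    rw [Finset.mem_filter] at hTu
    obtain ⟨a1, a2, a3, a4, a5⟩ := hTT Tu hTu.1
    obtain ⟨b1, b2, b3, b4, b5⟩ := hTT T₁ hT₁
    apply hfib R T δ E' u z₀ (z₀.1, z₀.2.1) Tu T₁ (qT Tu) (qT T₁) hR hδ hT0 hE hu1 a1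
      hTu.2.symm a2 b2 a3 b3
    intro i
    have c1 := abs_le.mp (a4 i)
    have c3 := b4 i
    rw [← hTu.2] at c3
    have c3 := abs_le.mp c3
    rw [abs_le]
    constructor <;> linarith [c1.1, c1.2, c3.1, c3.2]
  have hcard := Finset.card_le_mul_card_image TT ((2 * ⌊N⌋₊ + 1) ^ (m + 2)) hfibc
  have hcard' : (TT.card : ℝ) ≤ (2 * (⌊N⌋₊ : ℝ) + 1) ^ (m + 2) * J.card := by
    exact_mod_cast hcard
  have hfl : 2 * (⌊N⌋₊ : ℝ) + 1 ≤ 3 * N := by
    have := Nat.floor_le (by linarith : 0 ≤ N)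
    linarith
  have hEω : 1 ≤ E' / ω := by
    rw [le_div_iff₀ hω]
    linarith
  calc (TT.card : ℝ) ≤ (2 * (⌊N⌋₊ : ℝ) + 1) ^ (m + 2) * J.card := hcard'
    _ ≤ (3 * N) ^ (m + 2) * (K ^ (m + 2) * ((1 + C₁) * (E' / ω)) ^ m) := by
        apply mul_le_mul (pow_le_pow_left₀ (by positivity) hfl _) _ (by positivity)
          (by positivity)
        refine hJc.trans ?_
        apply mul_le_mul _ _ (by positivity) (by positivity)
        · calc C₂ ≤ K := le_max_left _ _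
            _ = K ^ 1 := (pow_one _).symm
            _ ≤ K ^ (m + 2) := pow_le_pow_right₀ hK1 (by omega)
        · apply pow_le_pow_left₀ (by positivity)
          nlinarith
    _ = (3 * C₇ * K * E' * R ^ (2 * δ)) ^ (m + 2) * ((1 + C₁) * (E' / ω)) ^ m := by
        rw [← mul_assoc, ← mul_pow, hN]
        ring
    _ ≤ (C * E' * R ^ (2 * δ)) ^ (m + 2) * (C * (E' / ω)) ^ m := by
        have hc1 : 3 * C₇ * K ≤ C := by rw [hCd]; linarith
        have hc2 : 1 + C₁ ≤ C := by rw [hCd]; linarith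
        have hc0 : 0 ≤ 3 * C₇ * K := by linarith
        gcongr
    _ = (C * E' / ω) ^ m * (C * E' * R ^ (2 * δ)) ^ (m + 2) := by
        rw [mul_div_assoc, mul_comm]

end Pool.Agent.H91.HD
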